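import Pool.Agent.R623.AF.Stm

/-! NUM: the choice of the parameters (project AF of helper623) -/

set_option autoImplicit false

namespace Pool.Agent.R623.AF

theorem NUM : S_NUM := by
  intro d p L h hd hp hh h1 h2
  have hd' : (1 : ℝ) ≤ d := by exact_mod_cast hd
  have hh' : (1 : ℝ) ≤ h := by exact_mod_cast hh
  have h2' : 16 * (d : ℝ) ≤ L := by exact_mod_cast h2
  have hL : (16 : ℝ) ≤ L := by linarith
  have hd0 : (0 : ℝ) ≤ d := by linarith
  have hL0 : (0 : ℝ) ≤ L := by linarith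
  have hh0 : (0 : ℝ) ≤ h := by linarith
  push_cast
  obtain ⟨l, hl⟩ : ∃ l : ℝ, l = L := ⟨_, rfl⟩
  obtain ⟨H, hH⟩ : ∃ H : ℝ, H = h := ⟨_, rfl⟩
  obtain ⟨D, hD⟩ : ∃ D : ℝ, D = d := ⟨_, rfl⟩
  obtain ⟨P, hP⟩ : ∃ P : ℝ, P = Real.log p := ⟨_, rfl⟩
  rw [← hl, ← hH, ← hD, ← hP]
  rw [← hl] at h2' hL hL0
  rw [← hH] at hh' hh0
  rw [← hD] at hd' h2' hd0
  rw [← hP, ← hl, ← hD] at h1
  clear hl hH hD hP hd hp hh h2
  have hHl : 0 ≤ H * l := mul_nonneg hh0 hL0
  have hHl2 : 0 ≤ H * l ^ 2 := mul_nonneg hh0 (sq_nonneg l)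
  have hHl1 : 16 ≤ H * l := by nlinarith
  -- logarithm
  have hlog : Real.log (339264 * H * l * l) ≤ 1166 * (H * l) := by
    have e1 : Real.log (339264 * H * l * l) ≤ Real.log ((583 * (H * l)) ^ 2) := by
      apply Real.log_le_log
      · have : 0 < l := by linarith
        have : 0 < H := by linarith
        positivity
      · have hl2 : 0 ≤ H * l ^ 2 := hHl2
        nlinarith [mul_le_mul_of_nonneg_right hh' hl2]
    have e2 : Real.log ((583 * (H * l)) ^ 2) = 2 * Real.log (583 * (H * l)) := by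
      rw [Real.log_pow]; norm_num
    have e3 : Real.log (583 * (H * l)) ≤ 583 * (H * l) - 1 :=
      Real.log_le_sub_one_of_pos (by nlinarith)
    linarith
  have t1 : D * Real.log (339264 * H * l * l) ≤ 73 * (H * l ^ 2) := by
    have a : D * Real.log (339264 * H * l * l) ≤ D * (1166 * (H * l)) :=
      mul_le_mul_of_nonneg_left hlog hd0
    have b : 16 * D * (H * l) ≤ l * (H * l) := mul_le_mul_of_nonneg_right h2' hHl
    nlinarith
  have t2 : D * (339264 * H * l) * P ≤ 21204 * (H * l ^ 2) := by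
    have b : 16 * D * P * (H * l) ≤ l * (H * l) := mul_le_mul_of_nonneg_right h1 hHl
    nlinarith
  have hRS : 600 * H * l + 577 * l + l ≤ 1178 * (H * l) := by
    have : l ≤ H * l := by nlinarith
    nlinarith
  have t3 : (D + 2) * (600 * H * l + 577 * l + l) ≤ 221 * (H * l ^ 2) := by
    have a : (D + 2) * (600 * H * l + 577 * l + l) ≤ (D + 2) * (1178 * (H * l)) :=
      mul_le_mul_of_nonneg_left hRS (by linarith)
    have b : 16 * (D + 2) ≤ 3 * l := by linarith
    have c : 16 * (D + 2) * (H * l) ≤ 3 * l * (H * l) := mul_le_mul_of_nonneg_right b hHl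
    nlinarith
  have hl2 : l ≤ H * l ^ 2 := by nlinarith
  have t4 : D ≤ H * l ^ 2 := by linarith
  have t5 : H * (1 + l * (577 * l + l)) ≤ 579 * (H * l ^ 2) := by
    have : 1 ≤ l ^ 2 := by nlinarith
    have : H * 1 ≤ H * l ^ 2 := mul_le_mul_of_nonneg_left this hh0
    nlinarith
  have t6 : 339264 * H * l ≤ 21204 * (H * l ^ 2) := by
    have : 16 * (H * l) ≤ l * (H * l) := mul_le_mul_of_nonneg_right hL hHl
    nlinarith
  have t7 : l * (18 * (600 * H * l + 577 * l + l) + 1) ≤ 21205 * (H * l ^ 2) := by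
    have : l * (600 * H * l + 577 * l + l) ≤ l * (1178 * (H * l)) :=
      mul_le_mul_of_nonneg_left hRS hL0
    nlinarith
  have hbig : 256 ≤ H * l ^ 2 := by nlinarith
  have e : 339264 * H * l * l = 339264 * (H * l ^ 2) := by ring
  have hfin : (339264 * H * l * l - 1) / 2 = 169632 * (H * l ^ 2) - 1 / 2 := by
    rw [e]; ring
  rw [hfin]
  linarith

end Pool.Agent.R623.AF
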