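import Mathlib

/-!
# Doubly-derived palintiples

The arithmetic behind the statement that the multiplier of a doubly-derived palintiple is the lower
base.
-/

set_option autoImplicit false

namespace Pool.Agent.R456.Palin

open Polynomial Finset

/-- The final inequality: the multiplier equals the lower base. -/
theorem final {n h β E N b q : ℤ} (hn : 2 ≤ n) (hh : 1 ≤ h) (hβ : 1 ≤ β) (hE : 1 ≤ E)
    (hhE : h * E ≤ n - 1) (hN : (h + n * β) * E + 1 ≤ N)
    (hq : q * (N ^ 2 - 1) = β * E * (β + N * (h + n * β)))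
    (hb : h * b = n * (h + n * β) - β) : N = b := by
  set α := h + n * β with hα
  have hαβ : β + 1 ≤ α := by nlinarith
  have hαE : 1 ≤ α * E := by nlinarith
  have hN2 : 2 ≤ N := by linarith
  have hm : 0 < N ^ 2 - 1 := by nlinarith
  have hβE : 1 ≤ β * E := by nlinarith
  have hq0 : 0 < q := by
    have : 0 < q * (N ^ 2 - 1) := by
      rw [hq]
      have : 0 < β + N * α := by nlinarith
      positivity
    exact (mul_pos_iff_of_pos_right hm).1 this
  -- r
  set r := q * N - α * (β * E) with hr
  have hr1 : β * β * E + q = N * r := by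
    have : q * N ^ 2 = q + β * E * (β + N * α) := by linarith
    calc β * β * E + q = (q + β * E * (β + N * α)) - N * α * (β * E) := by ring
      _ = q * N ^ 2 - N * α * (β * E) := by rw [this]
      _ = N * r := by rw [hr]; ring
  have hr0 : 0 < r := by
    have : 0 < N * r := by
      rw [← hr1]
      have : 0 < β * β * E := by positivity
      linarith
    exact (mul_pos_iff_of_pos_left (by linarith : (0:ℤ) < N)).1 this
  -- q < β
  have hqβ : q < β := by
    by_contra hcon
    push Not at hcon
    have h1 : β * (N ^ 2 - 1) ≤ β * (E * (β + N * α)) := by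
      calc β * (N ^ 2 - 1) ≤ q * (N ^ 2 - 1) := by nlinarith
        _ = β * (E * (β + N * α)) := by rw [hq]; ring
    have h2 : N ^ 2 - 1 ≤ E * (β + N * α) := le_of_mul_le_mul_left h1 (by linarith)
    have h3 : N * (α * E) ≤ N * (N - 1) := mul_le_mul_of_nonneg_left (by linarith) (by linarith)
    have h4 : β * E < α * E := by nlinarith
    nlinarith
  -- ρ
  obtain ⟨ρ, hρ⟩ : ∃ ρ, q = n * r + ρ := ⟨q - n * r, by ring⟩
  have key : r * (β * E * h) = β * β * E * ρ + q ^ 2 - r ^ 2 := by
    have e1 : α * (β * E) = q * N - r := by rw [hr]; ring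
    have e2 : β * E * h = α * (β * E) - n * (β * β * E) := by rw [hα]; ring
    have e3 : β * β * E = N * r - q := by linarith
    rw [e2, e1, e3, hρ]; ring
  have hρ0 : ρ = 0 := by
    rcases lt_trichotomy ρ 0 with h1 | h1 | h1
    · exfalso
      have h2 : 0 < r * (β * E * h) := by positivity
      have h5 : 0 < β * β := by positivity
      have h3 : β * β * E * ρ ≤ - (β * β) := by
        have h6 : E * ρ ≤ -1 := by nlinarith
        calc β * β * E * ρ = (β * β) * (E * ρ) := by ring
          _ ≤ (β * β) * (-1) := mul_le_mul_of_nonneg_left h6 h5.le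
          _ = _ := by ring
      have h7 : 0 < r ^ 2 := by positivity
      have h8 : q ^ 2 < β * β := by nlinarith
      linarith
    · exact h1
    · exfalso
      have h2 : r * (β * E * h) ≤ r * β * (n - 1) := by
        have : β * (h * E) ≤ β * (n - 1) := mul_le_mul_of_nonneg_left hhE (by linarith)
        calc r * (β * E * h) = r * (β * (h * E)) := by ring
          _ ≤ r * (β * (n - 1)) := mul_le_mul_of_nonneg_left this hr0.le
          _ = r * β * (n - 1) := by ring
      have h3 : β * β ≤ β * β * E * ρ := by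
        have : 1 ≤ E * ρ := by nlinarith
        have h5 : 0 < β * β := by positivity
        calc β * β = (β * β) * 1 := by ring
          _ ≤ (β * β) * (E * ρ) := mul_le_mul_of_nonneg_left this h5.le
          _ = _ := by ring
      have h4 : (n * r) ^ 2 ≤ q ^ 2 := by
        have : n * r ≤ q := by linarith
        have : 0 ≤ n * r := by positivity
        nlinarith
      have h5 : β * β + (n ^ 2 - 1) * r ^ 2 ≤ r * β * (n - 1) := by
        have h7 : β * β + q ^ 2 - r ^ 2 ≤ r * β * (n - 1) := by linarith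
        have h8 : (n ^ 2 - 1) * r ^ 2 = (n * r) ^ 2 - r ^ 2 := by ring
        linarith
      have h6 : ((n - 1) * r) ^ 2 ≤ (n ^ 2 - 1) * r ^ 2 := by
        have h9 : (n - 1) ^ 2 ≤ n ^ 2 - 1 := by
          have e : (n - 1) ^ 2 = n ^ 2 - 2 * n + 1 := by ring
          linarith
        calc ((n - 1) * r) ^ 2 = (n - 1) ^ 2 * r ^ 2 := by ring
          _ ≤ (n ^ 2 - 1) * r ^ 2 := mul_le_mul_of_nonneg_right h9 (by positivity)
      have h10 : 0 < r * β * (n - 1) := by
        have : 0 < n - 1 := by linarith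
        positivity
      have h11 := sq_nonneg (β - (n - 1) * r)
      have h12 : (β - (n - 1) * r) ^ 2 = β * β + ((n - 1) * r) ^ 2 - 2 * (r * β * (n - 1)) := by
        ring
      linarith
  subst hρ0
  rw [add_zero] at hρ
  -- now
  have k1 : r * (β * E * h) = r * ((n ^ 2 - 1) * r) := by rw [key, hρ]; ring
  have k2 : β * E * h = (n ^ 2 - 1) * r := mul_left_cancel₀ hr0.ne' k1
  have k3 : h * (b * r) = h * (N * r) := by
    calc h * (b * r) = (h * b) * r := by ring
      _ = (n * α - β) * r := by rw [hb]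
      _ = n * h * r + β * ((n ^ 2 - 1) * r) := by rw [hα]; ring
      _ = n * h * r + β * (β * E * h) := by rw [k2]
      _ = h * (β * β * E + n * r) := by ring
      _ = h * (β * β * E + q) := by rw [hρ]
      _ = h * (N * r) := by rw [hr1]
  have k4 : b * r = N * r := mul_left_cancel₀ (by linarith : h ≠ 0) k3
  exact (mul_right_cancel₀ hr0.ne' k4).symm

/-- Gauss's lemma, for a product with a cubic polynomial. -/
theorem gauss {m a0 a1 a2 a3 : ℤ} {K : ℕ} {s : ℕ → ℤ} (hs : ∀ t, K ≤ t → s t = 0)
    (h0 : m ∣ a0 * s 0) (h1 : m ∣ a0 * s 1 + a1 * s 0)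
    (h2 : m ∣ a0 * s 2 + a1 * s 1 + a2 * s 0)
    (h3 : ∀ t, m ∣ a0 * s (t + 3) + a1 * s (t + 2) + a2 * s (t + 1) + a3 * s t)
    {t0 : ℕ} (ht0 : 0 < s t0) :
    ∃ E : ℤ, 0 < E ∧ (∀ t, E ∣ s t) ∧ m ∣ E * a0 ∧ m ∣ E * a1 := by
  classical
  set F : ℤ[X] := ∑ t ∈ Finset.range K, Polynomial.monomial t (s t) with hF
  have hFc : ∀ t, F.coeff t = s t := by
    intro t
    rw [hF, Polynomial.finsetSum_coeff]
    simp only [Polynomial.coeff_monomial]
    rw [Finset.sum_ite_eq' (Finset.range K) t]
    split_ifs with h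
    · rfl
    · rw [hs t (by simpa using h)]
  set Q : ℤ[X] := C a0 + C a1 * X + C a2 * X ^ 2 + C a3 * X ^ 3 with hQ
  have hQ0 : Q.coeff 0 = a0 := by
    rw [hQ]
    simp [Polynomial.coeff_X_pow]
  have hQ1 : Q.coeff 1 = a1 := by
    rw [hQ]
    simp only [Polynomial.coeff_add, Polynomial.coeff_C_mul, Polynomial.coeff_X_pow,
      Polynomial.coeff_X_one, Polynomial.coeff_C_ne_zero (one_ne_zero)]
    norm_num
  have hcoeff : ∀ i, (F * Q).coeff i = s i * a0 + (if 1 ≤ i then s (i - 1) * a1 else 0)
      + (if 2 ≤ i then s (i - 2) * a2 else 0) + (if 3 ≤ i then s (i - 3) * a3 else 0) := by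
    intro i
    have e : F * Q = F * C a0 + F * C a1 * X ^ 1 + F * C a2 * X ^ 2 + F * C a3 * X ^ 3 := by
      rw [hQ]; ring
    rw [e]
    simp only [Polynomial.coeff_add, Polynomial.coeff_mul_X_pow', Polynomial.coeff_mul_C, hFc]
  have hdiv : C m ∣ F * Q := by
    rw [Polynomial.C_dvd_iff_dvd_coeff]
    intro i
    rw [hcoeff]
    rcases i with _ | _ | _ | i
    · simpa [mul_comm] using h0
    · have : (s (0 + 1) * a0 + (if 1 ≤ 0 + 1 then s (0 + 1 - 1) * a1 else 0)
        + (if 2 ≤ 0 + 1 then s (0 + 1 - 2) * a2 else 0)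
        + (if 3 ≤ 0 + 1 then s (0 + 1 - 3) * a3 else 0)) = a0 * s 1 + a1 * s 0 := by
        norm_num; ring
      rw [this]; exact h1
    · have : (s (0 + 1 + 1) * a0 + (if 1 ≤ 0 + 1 + 1 then s (0 + 1 + 1 - 1) * a1 else 0)
        + (if 2 ≤ 0 + 1 + 1 then s (0 + 1 + 1 - 2) * a2 else 0)
        + (if 3 ≤ 0 + 1 + 1 then s (0 + 1 + 1 - 3) * a3 else 0))
          = a0 * s 2 + a1 * s 1 + a2 * s 0 := by
        norm_num; ring
      rw [this]; exact h2
    · have : (s (i + 1 + 1 + 1) * a0 + (if 1 ≤ i + 1 + 1 + 1 then s (i + 1 + 1 + 1 - 1) * a1 else 0)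
        + (if 2 ≤ i + 1 + 1 + 1 then s (i + 1 + 1 + 1 - 2) * a2 else 0)
        + (if 3 ≤ i + 1 + 1 + 1 then s (i + 1 + 1 + 1 - 3) * a3 else 0))
          = a0 * s (i + 3) + a1 * s (i + 2) + a2 * s (i + 1) + a3 * s i := by
        rw [if_pos (by omega), if_pos (by omega), if_pos (by omega)]
        have e1 : i + 1 + 1 + 1 - 1 = i + 2 := by omega
        have e2 : i + 1 + 1 + 1 - 2 = i + 1 := by omega
        have e3 : i + 1 + 1 + 1 - 3 = i := by omega
        rw [e1, e2, e3]; ring
      rw [this]; exact h3 i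
  have hcont : m ∣ F.content * Q.content := by
    rw [← Polynomial.content_mul]
    exact (Polynomial.dvd_content_iff_C_dvd).2 hdiv
  have hEt : ∀ t, F.content ∣ s t := by
    intro t
    rw [← hFc t]
    exact Polynomial.content_dvd_coeff t
  have hEn : 0 ≤ F.content := by
    have := Polynomial.normalize_content (p := F)
    exact Int.nonneg_of_normalize_eq_self this
  have hE0 : F.content ≠ 0 := by
    intro h
    have := hEt t0
    rw [h, zero_dvd_iff] at this
    omega
  refine ⟨F.content, lt_of_le_of_ne hEn (Ne.symm hE0), hEt, ?_, ?_⟩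
  · have : Q.content ∣ a0 := by
      rw [← hQ0]; exact Polynomial.content_dvd_coeff 0
    exact hcont.trans (mul_dvd_mul_left _ this)
  · have : Q.content ∣ a1 := by
      rw [← hQ1]; exact Polynomial.content_dvd_coeff 1
    exact hcont.trans (mul_dvd_mul_left _ this)

/-- The core of the argument: from the column equations to `N = b`. -/
theorem core {n b N B : ℤ} {k : ℕ} {d c ch : ℕ → ℤ} (hn : 2 ≤ n) (hnb : n < b) (hk : 1 ≤ k)
    (c0 : c 0 = 0) (cpos : 0 < c 1) (c1 : c 1 ≤ n - 1)
    (hsym : ∀ i, i ≤ k + 1 → c (k + 1 - i) = c i)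
    (hd : ∀ i, i ≤ k → (n ^ 2 - 1) * d i = (n * b - 1) * c i + (b - n) * c (i + 1))
    (hN : d k + 1 ≤ N)
    (ch0 : ch 0 = 0) (chd : ∀ j, j ≤ k → ch (j + 1) = d j) (ch2 : ch (k + 2) = 0)
    (ch3 : ch (k + 3) = 0)
    (hcol : ∀ j, j ≤ k + 2 → (N ^ 2 - 1) ∣
      N * (B * ch (k + 3 - j) - ch (k + 2 - j)) + (B * ch (j + 1) - ch j)) : N = b := by
  have hgpos : 0 < Int.gcd (b - n) (n ^ 2 - 1) :=
    Int.gcd_pos_of_ne_zero_left _ (by omega)
  obtain ⟨β, h, hcop, eβ, eh⟩ := Int.exists_gcd_one hgpos
  set g : ℤ := ((Int.gcd (b - n) (n ^ 2 - 1) : ℕ) : ℤ) with hg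
  have hg0 : 0 < g := by rw [hg]; exact_mod_cast hgpos
  have hβ : 1 ≤ β := by
    have : 0 < β * g := by rw [← eβ]; omega
    have := (mul_pos_iff_of_pos_right hg0).1 this
    omega
  have hh : 1 ≤ h := by
    have : 0 < h * g := by rw [← eh]; nlinarith
    have := (mul_pos_iff_of_pos_right hg0).1 this
    omega
  set α := h + n * β with hα
  have hα0 : 0 < α := by nlinarith
  have hb : h * b = n * α - β := by
    have : (h * b) * g = (n * α - β) * g := by
      calc (h * b) * g = (h * g) * b := by ring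
        _ = (n ^ 2 - 1) * b := by rw [← eh]
        _ = n * (n ^ 2 - 1) + (n ^ 2 - 1) * (b - n) := by ring
        _ = n * (h * g) + (n ^ 2 - 1) * (β * g) := by rw [← eh, ← eβ]
        _ = _ := by rw [hα]; ring
    exact mul_right_cancel₀ hg0.ne' this
  have hd' : ∀ i, i ≤ k → h * d i = α * c i + β * c (i + 1) := by
    intro i hi
    have : (h * d i) * g = (α * c i + β * c (i + 1)) * g := by
      calc (h * d i) * g = (h * g) * d i := by ring
        _ = (n ^ 2 - 1) * d i := by rw [← eh]
        _ = (n * b - 1) * c i + (b - n) * c (i + 1) := hd i hi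
        _ = (n * (b - n) + (n ^ 2 - 1)) * c i + (b - n) * c (i + 1) := by ring
        _ = (n * (β * g) + h * g) * c i + (β * g) * c (i + 1) := by rw [← eh, ← eβ]
        _ = _ := by rw [hα]; ring
    exact mul_right_cancel₀ hg0.ne' this
  have hcop' : IsCoprime h β := (Int.isCoprime_iff_gcd_eq_one.2 hcop).symm
  have hdvd : ∀ i, i ≤ k + 1 → h ∣ c i := by
    intro i
    induction i with
    | zero => intro _; rw [c0]; exact dvd_zero _
    | succ i ih =>
      intro hi
      have h1 : h ∣ α * c i + β * c (i + 1) := ⟨d i, (hd' i (by omega)).symm⟩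
      have h2 : h ∣ α * c i := Dvd.dvd.mul_left (ih (by omega)) _
      have h3 : h ∣ β * c (i + 1) := (dvd_add_right h2).1 h1
      exact hcop'.dvd_of_dvd_mul_left h3
  set s : ℕ → ℤ := fun t => if 1 ≤ t ∧ t ≤ k + 2 then c (t - 1) / h else 0 with hs
  have s0 : s 0 = 0 := by simp [hs]
  have s1 : s 1 = 0 := by simp [hs, c0]
  have ck1 : c (k + 1) = 0 := by
    have := hsym 0 (by omega)
    simpa [c0] using this
  have sk : ∀ t, k + 2 ≤ t → s t = 0 := by
    intro t ht
    rw [hs]
    simp only
    split_ifs with h1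
    · have : t - 1 = k + 1 := by omega
      rw [this, ck1]; simp
    · rfl
  have sc : ∀ t, 1 ≤ t → t ≤ k + 2 → h * s t = c (t - 1) := by
    intro t ht1 ht2
    rw [hs]
    simp only
    rw [if_pos ⟨ht1, ht2⟩]
    exact Int.mul_ediv_cancel' (hdvd _ (by omega))
  have ssym : ∀ t, t ≤ k + 3 → s (k + 3 - t) = s t := by
    intro t ht
    rcases Nat.eq_zero_or_pos t with h0 | h0
    · subst h0; rw [s0]; exact sk _ (by omega)
    · rcases Nat.lt_or_ge (k + 2) t with h1 | h1
      · have : t = k + 3 := by omega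
        subst this
        rw [Nat.sub_self, s0, sk _ (by omega)]
      · have e1 := sc t h0 h1
        have e2 := sc (k + 3 - t) (by omega) (by omega)
        have e3 : c (k + 3 - t - 1) = c (t - 1) := by
          have := hsym (t - 1) (by omega)
          have e4 : k + 1 - (t - 1) = k + 3 - t - 1 := by omega
          rw [e4] at this; exact this
        have : h * s (k + 3 - t) = h * s t := by rw [e1, e2, e3]
        exact mul_left_cancel₀ (by omega : h ≠ 0) this
  have sd : ∀ j, j ≤ k → d j = α * s (j + 1) + β * s (j + 2) := by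
    intro j hj
    have e1 := sc (j + 1) (by omega) (by omega)
    have e2 := sc (j + 2) (by omega) (by omega)
    rw [Nat.add_sub_cancel] at e1
    have e3 : j + 2 - 1 = j + 1 := by omega
    rw [e3] at e2
    have : h * d j = h * (α * s (j + 1) + β * s (j + 2)) := by
      rw [hd' j hj, ← e1, ← e2]; ring
    exact mul_left_cancel₀ (by omega : h ≠ 0) this
  have sch : ∀ t, t ≤ k + 3 → ch t = α * s t + β * s (t + 1) := by
    intro t ht
    rcases Nat.eq_zero_or_pos t with h0 | h0
    · subst h0; rw [ch0, s0, zero_add, s1]; ring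
    · rcases Nat.lt_or_ge (k + 1) t with h1 | h1
      · rw [sk t (by omega), sk (t + 1) (by omega)]
        rcases Nat.lt_or_ge t (k + 3) with h2 | h2
        · have : t = k + 2 := by omega
          rw [this, ch2]; ring
        · have : t = k + 3 := by omega
          rw [this, ch3]; ring
      · obtain ⟨j, rfl⟩ : ∃ j, t = j + 1 := ⟨t - 1, by omega⟩
        rw [chd j (by omega), sd j (by omega)]
  have s2 : 0 < s 2 := by
    have e := sc 2 (by omega) (by omega)
    have e' : (2 : ℕ) - 1 = 1 := by norm_num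
    rw [e'] at e
    have : 0 < h * s 2 := by rw [e]; exact cpos
    exact (mul_pos_iff_of_pos_left (by omega)).1 this
  obtain ⟨E, hE0, hEs, hEa0, hEa1⟩ := gauss (m := N ^ 2 - 1) (a0 := B * β)
    (a1 := B * α - β - N * α) (a2 := N * (B * α - β - N * α)) (a3 := N * B * β)
    (K := k + 2) (s := s) sk (by rw [s0]; simp) (by rw [s0, s1]; simp)
    (by
      have h := hcol 0 (by omega)
      rw [Nat.sub_zero, Nat.sub_zero, ch3, ch2, ch0, sch (0 + 1) (by omega), zero_add, s1] at h
      have e : N * (B * 0 - 0) + (B * (α * 0 + β * s (1 + 1)) - 0) =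
        B * β * s 2 + (B * α - β - N * α) * s 1 + N * (B * α - β - N * α) * s 0 := by
        rw [s0, s1]; ring
      rw [e] at h; exact h)
    (by
      intro t
      rcases Nat.lt_or_ge (k + 1) t with h1 | h1
      · rw [sk t (by omega), sk (t + 1) (by omega), sk (t + 2) (by omega), sk (t + 3) (by omega)]
        simp
      · have h := hcol (t + 1) (by omega)
        have e1 : ch (k + 3 - (t + 1)) = α * s (t + 1) + β * s t := by
          rw [sch _ (by omega), ssym (t + 1) (by omega)]
          have : k + 3 - (t + 1) + 1 = k + 3 - t := by omega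
          rw [this, ssym t (by omega)]
        have e2 : ch (k + 2 - (t + 1)) = α * s (t + 2) + β * s (t + 1) := by
          rw [sch _ (by omega)]
          have h5 : k + 2 - (t + 1) = k + 3 - (t + 2) := by omega
          have h6 : k + 2 - (t + 1) + 1 = k + 3 - (t + 1) := by omega
          rw [h6, h5, ssym (t + 2) (by omega), ssym (t + 1) (by omega)]
        rw [e1, e2, sch (t + 1 + 1) (by omega), sch (t + 1) (by omega)] at h
        have e3 : B * β * s (t + 3) + (B * α - β - N * α) * s (t + 2)
            + N * (B * α - β - N * α) * s (t + 1) + N * B * β * s t =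
            (N * (B * (α * s (t + 1) + β * s t) - (α * s (t + 2) + β * s (t + 1))) +
              (B * (α * s (t + 1 + 1) + β * s (t + 1 + 1 + 1)) -
                (α * s (t + 1) + β * s (t + 1 + 1)))) - (N ^ 2 - 1) * (α * s (t + 1)) := by
          have h7 : t + 1 + 1 + 1 = t + 3 := rfl
          have h8 : t + 1 + 1 = t + 2 := rfl
          rw [h7, h8]
          ring
        rw [e3]
        exact dvd_sub h (dvd_mul_right _ _))
    s2
  have hEs2 : E ≤ s 2 := Int.le_of_dvd s2 (hEs 2)
  -- the final inequality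
  have hdk : d k = α * s 2 := by
    rw [sd k le_rfl, sk (k + 2) le_rfl]
    have : k + 1 = k + 3 - 2 := by omega
    rw [this, ssym 2 (by omega)]; ring
  have hNE : α * E + 1 ≤ N := by
    have : α * E ≤ α * s 2 := mul_le_mul_of_nonneg_left hEs2 hα0.le
    omega
  have hhE : h * E ≤ n - 1 := by
    have e := sc 2 (by omega) (by omega)
    have e' : (2 : ℕ) - 1 = 1 := by norm_num
    rw [e'] at e
    have : h * E ≤ h * s 2 := mul_le_mul_of_nonneg_left hEs2 (by omega)
    omega
  have hdiv : (N ^ 2 - 1) ∣ β * E * (β + N * α) := by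
    have h1 : (N ^ 2 - 1) ∣ α * (E * (B * β)) - β * (E * (B * α - β - N * α)) :=
      dvd_sub (Dvd.dvd.mul_left hEa0 _) (Dvd.dvd.mul_left hEa1 _)
    have e : α * (E * (B * β)) - β * (E * (B * α - β - N * α)) = β * E * (β + N * α) := by ring
    rw [e] at h1; exact h1
  obtain ⟨q, hq⟩ := hdiv
  exact final (q := q) hn hh hβ (by omega) hhE hNE (by rw [mul_comm, ← hq]) hb

end Pool.Agent.R456.Palin
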