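import Mathlib

/-!
# Rogers' theorem on unions of residue classes

Among all unions of residue classes with prescribed moduli dividing `a`, the union of the classes
of `0` has the fewest elements in a full period.
-/

namespace Pool.Agent.R456

open Finset

/-- Number of elements of `{0, …, a-1}` congruent to `b` modulo `m`, for `m ∣ a`. -/
theorem card_class (a m : ℕ) (hm : m ∣ a) (b : ℤ) :
    ((range a).filter (fun x : ℕ => (m : ℤ) ∣ (x : ℤ) - b)).card =
      ((range a).filter (fun x : ℕ => (m : ℤ) ∣ (x : ℤ))).card := by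
  classical
  rcases Nat.eq_zero_or_pos a with rfl | ha
  · simp
  have hm0 : 0 < m := Nat.pos_of_dvd_of_pos hm ha
  obtain ⟨c, hc⟩ := hm
  -- a natural number `n0 ≡ -b` modulo `m`
  obtain ⟨n0, hn0⟩ : ∃ n0 : ℕ, (m : ℤ) ∣ (n0 : ℤ) + b := by
    refine ⟨((-b) % (m : ℤ)).toNat, ?_⟩
    have h1 : 0 ≤ (-b) % (m : ℤ) := Int.emod_nonneg _ (by exact_mod_cast hm0.ne')
    rw [Int.toNat_of_nonneg h1]
    have h2 := Int.emod_add_mul_ediv (-b) (m : ℤ)
    refine ⟨-((-b) / (m : ℤ)), ?_⟩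
    linarith
  have hper : Function.Periodic (fun y : ℕ => (m : ℤ) ∣ (y : ℤ)) a := by
    intro y
    simp only [eq_iff_iff]
    constructor
    · intro h
      have h2 : (m : ℤ) ∣ (a : ℤ) := ⟨c, by exact_mod_cast hc⟩
      have := Int.dvd_sub h h2
      simpa using this
    · intro h
      have h2 : (m : ℤ) ∣ (a : ℤ) := ⟨c, by exact_mod_cast hc⟩
      have := Int.dvd_add h h2
      simpa using this
  have h1 := Nat.filter_Ico_card_eq_of_periodic n0 a (fun y : ℕ => (m : ℤ) ∣ (y : ℤ)) hper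
  have h2 := Nat.filter_Ico_card_eq_of_periodic 0 a (fun y : ℕ => (m : ℤ) ∣ (y : ℤ)) hper
  have h3 : ((range a).filter (fun x : ℕ => (m : ℤ) ∣ (x : ℤ) - b)).card =
      ((Ico n0 (n0 + a)).filter (fun y : ℕ => (m : ℤ) ∣ (y : ℤ))).card := by
    refine Finset.card_bij (fun x _ => n0 + x) ?_ ?_ ?_
    · intro x hx
      simp only [mem_filter, mem_range, mem_Ico] at hx ⊢
      refine ⟨⟨by omega, by omega⟩, ?_⟩
      have := Int.dvd_add hx.2 hn0
      have h4 : (x : ℤ) - b + ((n0 : ℤ) + b) = ((n0 + x : ℕ) : ℤ) := by push_cast; ring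
      rwa [h4] at this
    · intro x _ y _ h
      simpa using h
    · intro y hy
      simp only [mem_filter, mem_range, mem_Ico] at hy ⊢
      refine ⟨y - n0, ⟨by omega, ?_⟩, by omega⟩
      have := Int.dvd_sub hy.2 hn0
      have h4 : (y : ℤ) - ((n0 : ℤ) + b) = ((y - n0 : ℕ) : ℤ) - b := by
        rw [Nat.cast_sub hy.1.1]; ring
      rwa [h4] at this
  have h4 : (range a) = Ico 0 (0 + a) := by rw [zero_add, Finset.range_eq_Ico]
  rw [h3, h1, h4, h2]

/-- The counting function over a product set. -/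
theorem card_crt (a b : ℕ) (hab : a.Coprime b) (P : ℕ → ℕ → Prop) [∀ y z, Decidable (P y z)] :
    ((range (a * b)).filter (fun x : ℕ => P (x % a) (x % b))).card =
      ∑ z ∈ range b, ((range a).filter (fun y => P y z)).card := by
  classical
  rcases Nat.eq_zero_or_pos a with rfl | ha
  · simp
  rcases Nat.eq_zero_or_pos b with rfl | hb
  · simp
  have h1 : ∑ z ∈ range b, ((range a).filter (fun y => P y z)).card =
      (((range a) ×ˢ (range b)).filter (fun q => P q.1 q.2)).card := by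
    rw [Finset.card_filter, Finset.sum_product_right]
    apply Finset.sum_congr rfl
    intro z _
    rw [Finset.card_filter]
  rw [h1]
  refine Finset.card_bij (fun x _ => (x % a, x % b)) ?_ ?_ ?_
  · intro x hx
    simp only [mem_filter, mem_range, mem_product] at hx ⊢
    exact ⟨⟨Nat.mod_lt _ ha, Nat.mod_lt _ hb⟩, hx.2⟩
  · intro x hx y hy h
    simp only [mem_filter, mem_range, Prod.mk.injEq] at hx hy h
    have h2 : x ≡ y [MOD a * b] := (Nat.modEq_and_modEq_iff_modEq_mul hab).mp ⟨h.1, h.2⟩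
    exact Nat.ModEq.eq_of_lt_of_lt h2 hx.1 hy.1
  · rintro ⟨y, z⟩ hyz
    simp only [mem_filter, mem_range, mem_product] at hyz
    obtain ⟨⟨hy, hz⟩, hP⟩ := hyz
    obtain ⟨x, hx1, hx2⟩ := Nat.chineseRemainder hab y z
    have e1 : (x % (a * b)) % a = y := by
      rw [Nat.mod_mul_right_mod]
      have := hx1
      rw [Nat.ModEq, Nat.mod_eq_of_lt hy] at this
      exact this
    have e2 : (x % (a * b)) % b = z := by
      rw [Nat.mod_mul_left_mod]
      have := hx2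
      rw [Nat.ModEq, Nat.mod_eq_of_lt hz] at this
      exact this
    refine ⟨x % (a * b), ?_, ?_⟩
    · simp only [mem_filter, mem_range]
      refine ⟨Nat.mod_lt _ (Nat.mul_pos ha hb), ?_⟩
      rw [e1, e2]
      exact hP
    · rw [e1, e2]

open Classical in
/-- Rogers' theorem. -/
theorem rogers (a : ℕ) : ∀ (ι : Type) (T : Set ι) (m : ι → ℕ) (b : ι → ℤ),
    (∀ i ∈ T, m i ∣ a) →
    ((range a).filter (fun x : ℕ => ∃ i ∈ T, (m i : ℤ) ∣ (x : ℤ))).card ≤
      ((range a).filter (fun x : ℕ => ∃ i ∈ T, (m i : ℤ) ∣ (x : ℤ) - b i)).card := by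
  induction a using Nat.recOnPosPrimePosCoprime with
  | prime_pow p n hp hn =>
    intro ι T m b hm
    by_cases hT : T.Nonempty
    · obtain ⟨i0, hi0, hmin⟩ : ∃ i0 ∈ T, ∀ i ∈ T, m i0 ≤ m i := by
        obtain ⟨i0, hi0, h⟩ := (InvImage.wf m Nat.lt_wfRel.wf).has_min T hT
        exact ⟨i0, hi0, fun i hi => not_lt.mp (h i hi)⟩
      have hdvd : ∀ i ∈ T, m i0 ∣ m i := by
        intro i hi
        obtain ⟨e, _, he⟩ := (Nat.dvd_prime_pow hp).mp (hm i hi)
        obtain ⟨e0, _, he0⟩ := (Nat.dvd_prime_pow hp).mp (hm i0 hi0)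
        have := hmin i hi
        rw [he, he0] at this ⊢
        exact pow_dvd_pow p ((Nat.pow_le_pow_iff_right hp.one_lt).mp this)
      calc ((range (p ^ n)).filter (fun x : ℕ => ∃ i ∈ T, (m i : ℤ) ∣ (x : ℤ))).card
          ≤ ((range (p ^ n)).filter (fun x : ℕ => (m i0 : ℤ) ∣ (x : ℤ))).card := by
            apply Finset.card_le_card
            intro x hx
            simp only [mem_filter] at hx ⊢
            obtain ⟨hx1, i, hi, hx2⟩ := hx
            exact ⟨hx1, (Int.natCast_dvd_natCast.mpr (hdvd i hi)).trans hx2⟩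
        _ = ((range (p ^ n)).filter (fun x : ℕ => (m i0 : ℤ) ∣ (x : ℤ) - b i0)).card :=
            (card_class _ _ (hm i0 hi0) _).symm
        _ ≤ _ := by
            apply Finset.card_le_card
            intro x hx
            simp only [mem_filter] at hx ⊢
            exact ⟨hx.1, i0, hi0, hx.2⟩
    · rw [Set.not_nonempty_iff_eq_empty] at hT
      subst hT
      simp
  | zero =>
    intro ι T m b hm
    simp
  | one =>
    intro ι T m b hm
    apply Finset.card_le_card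
    intro x hx
    simp only [mem_filter] at hx ⊢
    obtain ⟨hx1, i, hi, _⟩ := hx
    refine ⟨hx1, i, hi, ?_⟩
    have : m i = 1 := Nat.dvd_one.mp (hm i hi)
    rw [this]
    simp
  | coprime a1 a2 h1 h2 hab ih1 ih2 =>
    intro ι T m b hm
    have hpos1 : 0 < a1 := by omega
    have hpos2 : 0 < a2 := by omega
    -- splitting of the moduli
    have key : ∀ i ∈ T, ∀ (x : ℕ) (v : ℤ), ((m i : ℤ) ∣ (x : ℤ) - v ↔
        ((Nat.gcd (m i) a1 : ℕ) : ℤ) ∣ ((x % a1 : ℕ) : ℤ) - v ∧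
        ((Nat.gcd (m i) a2 : ℕ) : ℤ) ∣ ((x % a2 : ℕ) : ℤ) - v) := by
      intro i hi x v
      have hmi : m i = Nat.gcd (m i) a1 * Nat.gcd (m i) a2 := by
        rw [← Nat.Coprime.gcd_mul _ hab]
        exact (Nat.gcd_eq_left (hm i hi)).symm
      have hcop : IsCoprime ((Nat.gcd (m i) a1 : ℕ) : ℤ) ((Nat.gcd (m i) a2 : ℕ) : ℤ) := by
        rw [Nat.isCoprime_iff_coprime]
        exact (hab.coprime_dvd_left (Nat.gcd_dvd_right _ _)).coprime_dvd_right
          (Nat.gcd_dvd_right _ _)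
      have hA : ((Nat.gcd (m i) a1 : ℕ) : ℤ) ∣ (x : ℤ) - ((x % a1 : ℕ) : ℤ) := by
        have h3 : (a1 : ℤ) ∣ (x : ℤ) - ((x % a1 : ℕ) : ℤ) := by
          refine ⟨((x / a1 : ℕ) : ℤ), ?_⟩
          have h4 := Nat.mod_add_div x a1
          have h5 : ((x % a1 : ℕ) : ℤ) + (a1 : ℤ) * ((x / a1 : ℕ) : ℤ) = (x : ℤ) := by
            exact_mod_cast h4
          linarith
        exact (Int.natCast_dvd_natCast.mpr (Nat.gcd_dvd_right _ _)).trans h3
      have hB : ((Nat.gcd (m i) a2 : ℕ) : ℤ) ∣ (x : ℤ) - ((x % a2 : ℕ) : ℤ) := by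
        have h3 : (a2 : ℤ) ∣ (x : ℤ) - ((x % a2 : ℕ) : ℤ) := by
          refine ⟨((x / a2 : ℕ) : ℤ), ?_⟩
          have h4 := Nat.mod_add_div x a2
          have h5 : ((x % a2 : ℕ) : ℤ) + (a2 : ℤ) * ((x / a2 : ℕ) : ℤ) = (x : ℤ) := by
            exact_mod_cast h4
          linarith
        exact (Int.natCast_dvd_natCast.mpr (Nat.gcd_dvd_right _ _)).trans h3
      have e1 : ((Nat.gcd (m i) a1 : ℕ) : ℤ) ∣ (x : ℤ) - v ↔
          ((Nat.gcd (m i) a1 : ℕ) : ℤ) ∣ ((x % a1 : ℕ) : ℤ) - v := by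
        constructor
        · intro h
          have := Int.dvd_sub h hA
          have e : (x : ℤ) - v - ((x : ℤ) - ((x % a1 : ℕ) : ℤ)) = ((x % a1 : ℕ) : ℤ) - v := by
            ring
          rwa [e] at this
        · intro h
          have := Int.dvd_add h hA
          have e : ((x % a1 : ℕ) : ℤ) - v + ((x : ℤ) - ((x % a1 : ℕ) : ℤ)) = (x : ℤ) - v := by
            ring
          rwa [e] at this
      have e2 : ((Nat.gcd (m i) a2 : ℕ) : ℤ) ∣ (x : ℤ) - v ↔
          ((Nat.gcd (m i) a2 : ℕ) : ℤ) ∣ ((x % a2 : ℕ) : ℤ) - v := by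
        constructor
        · intro h
          have := Int.dvd_sub h hB
          have e : (x : ℤ) - v - ((x : ℤ) - ((x % a2 : ℕ) : ℤ)) = ((x % a2 : ℕ) : ℤ) - v := by
            ring
          rwa [e] at this
        · intro h
          have := Int.dvd_add h hB
          have e : ((x % a2 : ℕ) : ℤ) - v + ((x : ℤ) - ((x % a2 : ℕ) : ℤ)) = (x : ℤ) - v := by
            ring
          rwa [e] at this
      rw [← e1, ← e2]
      constructor
      · intro h
        have hmi' : (m i : ℤ) = ((Nat.gcd (m i) a1 : ℕ) : ℤ) * ((Nat.gcd (m i) a2 : ℕ) : ℤ) := by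
          exact_mod_cast hmi
        rw [hmi'] at h
        exact ⟨(dvd_mul_right _ _).trans h, (dvd_mul_left _ _).trans h⟩
      · rintro ⟨h3, h4⟩
        have hmi' : (m i : ℤ) = ((Nat.gcd (m i) a1 : ℕ) : ℤ) * ((Nat.gcd (m i) a2 : ℕ) : ℤ) := by
          exact_mod_cast hmi
        rw [hmi']
        exact hcop.mul_dvd h3 h4
    have hL : ((range (a1 * a2)).filter (fun x : ℕ => ∃ i ∈ T, (m i : ℤ) ∣ (x : ℤ))).card =
        ∑ z ∈ range a2, ((range a1).filter (fun y : ℕ => ∃ i ∈ T,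
          ((Nat.gcd (m i) a1 : ℕ) : ℤ) ∣ (y : ℤ) ∧ ((Nat.gcd (m i) a2 : ℕ) : ℤ) ∣ (z : ℤ))).card := by
      rw [← card_crt a1 a2 hab (fun y z => ∃ i ∈ T,
          ((Nat.gcd (m i) a1 : ℕ) : ℤ) ∣ (y : ℤ) ∧ ((Nat.gcd (m i) a2 : ℕ) : ℤ) ∣ (z : ℤ))]
      congr 1
      apply Finset.filter_congr
      intro x _
      constructor
      · rintro ⟨i, hi, hx⟩
        have := (key i hi x 0).mp (by simpa using hx)
        exact ⟨i, hi, by simpa using this⟩
      · rintro ⟨i, hi, hx⟩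
        have := (key i hi x 0).mpr (by simpa using hx)
        exact ⟨i, hi, by simpa using this⟩
    have hR : ((range (a1 * a2)).filter (fun x : ℕ => ∃ i ∈ T, (m i : ℤ) ∣ (x : ℤ) - b i)).card =
        ∑ z ∈ range a2, ((range a1).filter (fun y : ℕ => ∃ i ∈ T,
          ((Nat.gcd (m i) a1 : ℕ) : ℤ) ∣ (y : ℤ) - b i ∧
          ((Nat.gcd (m i) a2 : ℕ) : ℤ) ∣ (z : ℤ) - b i)).card := by
      rw [← card_crt a1 a2 hab (fun y z => ∃ i ∈ T,
          ((Nat.gcd (m i) a1 : ℕ) : ℤ) ∣ (y : ℤ) - b i ∧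
          ((Nat.gcd (m i) a2 : ℕ) : ℤ) ∣ (z : ℤ) - b i)]
      congr 1
      apply Finset.filter_congr
      intro x _
      constructor
      · rintro ⟨i, hi, hx⟩
        exact ⟨i, hi, (key i hi x (b i)).mp hx⟩
      · rintro ⟨i, hi, hx⟩
        exact ⟨i, hi, (key i hi x (b i)).mpr hx⟩
    rw [hL, hR]
    -- first step : remove the shifts in the first coordinate
    have step1 : ∀ z ∈ range a2, ((range a1).filter (fun y : ℕ => ∃ i ∈ T,
          ((Nat.gcd (m i) a1 : ℕ) : ℤ) ∣ (y : ℤ) ∧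
          ((Nat.gcd (m i) a2 : ℕ) : ℤ) ∣ (z : ℤ) - b i)).card ≤
        ((range a1).filter (fun y : ℕ => ∃ i ∈ T,
          ((Nat.gcd (m i) a1 : ℕ) : ℤ) ∣ (y : ℤ) - b i ∧
          ((Nat.gcd (m i) a2 : ℕ) : ℤ) ∣ (z : ℤ) - b i)).card := by
      intro z _
      have h := ih1 ι {i | i ∈ T ∧ ((Nat.gcd (m i) a2 : ℕ) : ℤ) ∣ (z : ℤ) - b i}
        (fun i => Nat.gcd (m i) a1) b (fun i _ => Nat.gcd_dvd_right _ _)
      have e1 : ((range a1).filter (fun y : ℕ => ∃ i ∈ T,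
          ((Nat.gcd (m i) a1 : ℕ) : ℤ) ∣ (y : ℤ) ∧
          ((Nat.gcd (m i) a2 : ℕ) : ℤ) ∣ (z : ℤ) - b i)) =
          ((range a1).filter (fun y : ℕ => ∃ i ∈
            {i | i ∈ T ∧ ((Nat.gcd (m i) a2 : ℕ) : ℤ) ∣ (z : ℤ) - b i},
            ((Nat.gcd (m i) a1 : ℕ) : ℤ) ∣ (y : ℤ))) := by
        apply Finset.filter_congr
        intro y _
        constructor
        · rintro ⟨i, hi, h3, h4⟩
          exact ⟨i, ⟨hi, h4⟩, h3⟩
        · rintro ⟨i, ⟨hi, h4⟩, h3⟩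
          exact ⟨i, hi, h3, h4⟩
      have e2 : ((range a1).filter (fun y : ℕ => ∃ i ∈ T,
          ((Nat.gcd (m i) a1 : ℕ) : ℤ) ∣ (y : ℤ) - b i ∧
          ((Nat.gcd (m i) a2 : ℕ) : ℤ) ∣ (z : ℤ) - b i)) =
          ((range a1).filter (fun y : ℕ => ∃ i ∈
            {i | i ∈ T ∧ ((Nat.gcd (m i) a2 : ℕ) : ℤ) ∣ (z : ℤ) - b i},
            ((Nat.gcd (m i) a1 : ℕ) : ℤ) ∣ (y : ℤ) - b i)) := by
        apply Finset.filter_congr
        intro y _
        constructor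
        · rintro ⟨i, hi, h3, h4⟩
          exact ⟨i, ⟨hi, h4⟩, h3⟩
        · rintro ⟨i, ⟨hi, h4⟩, h3⟩
          exact ⟨i, hi, h3, h4⟩
      rw [e1, e2]
      exact h
    refine le_trans ?_ (Finset.sum_le_sum step1)
    -- second step : exchange the roles
    have swap : ∀ (F : ℕ → ℕ → Prop),
        ∑ z ∈ range a2, ((range a1).filter (fun y : ℕ => F y z)).card =
        ∑ y ∈ range a1, ((range a2).filter (fun z : ℕ => F y z)).card := by
      intro F
      simp only [Finset.card_filter]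
      exact Finset.sum_comm
    rw [swap (fun y z => ∃ i ∈ T,
          ((Nat.gcd (m i) a1 : ℕ) : ℤ) ∣ (y : ℤ) ∧ ((Nat.gcd (m i) a2 : ℕ) : ℤ) ∣ (z : ℤ)),
      swap (fun y z => ∃ i ∈ T,
          ((Nat.gcd (m i) a1 : ℕ) : ℤ) ∣ (y : ℤ) ∧
          ((Nat.gcd (m i) a2 : ℕ) : ℤ) ∣ (z : ℤ) - b i)]
    apply Finset.sum_le_sum
    intro y _
    have h := ih2 ι {i | i ∈ T ∧ ((Nat.gcd (m i) a1 : ℕ) : ℤ) ∣ (y : ℤ)}
      (fun i => Nat.gcd (m i) a2) b (fun i _ => Nat.gcd_dvd_right _ _)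
    have e1 : ((range a2).filter (fun z : ℕ => ∃ i ∈ T,
        ((Nat.gcd (m i) a1 : ℕ) : ℤ) ∣ (y : ℤ) ∧
        ((Nat.gcd (m i) a2 : ℕ) : ℤ) ∣ (z : ℤ))) =
        ((range a2).filter (fun z : ℕ => ∃ i ∈
          {i | i ∈ T ∧ ((Nat.gcd (m i) a1 : ℕ) : ℤ) ∣ (y : ℤ)},
          ((Nat.gcd (m i) a2 : ℕ) : ℤ) ∣ (z : ℤ))) := by
      apply Finset.filter_congr
      intro z _
      constructor
      · rintro ⟨i, hi, h3, h4⟩
        exact ⟨i, ⟨hi, h3⟩, h4⟩
      · rintro ⟨i, ⟨hi, h3⟩, h4⟩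
        exact ⟨i, hi, h3, h4⟩
    have e2 : ((range a2).filter (fun z : ℕ => ∃ i ∈ T,
        ((Nat.gcd (m i) a1 : ℕ) : ℤ) ∣ (y : ℤ) ∧
        ((Nat.gcd (m i) a2 : ℕ) : ℤ) ∣ (z : ℤ) - b i)) =
        ((range a2).filter (fun z : ℕ => ∃ i ∈
          {i | i ∈ T ∧ ((Nat.gcd (m i) a1 : ℕ) : ℤ) ∣ (y : ℤ)},
          ((Nat.gcd (m i) a2 : ℕ) : ℤ) ∣ (z : ℤ) - b i)) := by
      apply Finset.filter_congr
      intro z _
      constructor
      · rintro ⟨i, hi, h3, h4⟩
        exact ⟨i, ⟨hi, h3⟩, h4⟩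
      · rintro ⟨i, ⟨hi, h3⟩, h4⟩
        exact ⟨i, hi, h3, h4⟩
    rw [e1, e2]
    exact h

end Pool.Agent.R456
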